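import Mathlib
import Pool.Agent.H82.ICM.G13

/-!
The one-arm construction of the incipient infinite cluster of the critical FK-Ising model on `ℤ^d`, `d ≥ 3`.
-/

set_option autoImplicit false

open MeasureTheory Filter Topology

namespace Pool.Agent.Results.MP_c4c051_pr.OneArmIIC

/-- vertices of `ℤ^d` -/
abbrev Vertex (d : ℕ) := Fin d → ℤ

/-- nearest-neighbour edges: `(x, i)` is the edge between `x` and `x + e_i` -/
abbrev Edge (d : ℕ) := (Fin d → ℤ) × Fin d

/-- configurations; `ω e = true` means that the edge `e` is open -/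
abbrev Config (d : ℕ) := Edge d → Bool

/-- `x` and `y` are the two ends of an open edge -/
def Step {d : ℕ} (ω : Config d) (x y : Vertex d) : Prop :=
  ∃ e : Edge d, ω e = true ∧
    ((e.1 = x ∧ e.1 + Pi.single e.2 1 = y) ∨ (e.1 = y ∧ e.1 + Pi.single e.2 1 = x))

/-- `x` and `y` are connected by open edges -/
def Connected {d : ℕ} (ω : Config d) (x y : Vertex d) : Prop :=
  Relation.ReflTransGen (Step ω) x y

/-- the box `Λ_n = [-n,n]^d ∩ ℤ^d` -/
noncomputable def box (d n : ℕ) : Finset (Vertex d) :=
  Fintype.piFinset (fun _ => Finset.Icc (-(n : ℤ)) n)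

/-- the edges with both ends in `Λ_n` -/
noncomputable def boxEdges (d n : ℕ) : Finset (Edge d) :=
  (box d n ×ˢ Finset.univ).filter (fun e => e.1 + Pi.single e.2 1 ∈ box d n)

/-- the vertices of `Λ_n` with a neighbour outside `Λ_n` -/
noncomputable def boundary (d n : ℕ) : Finset (Vertex d) :=
  open Classical in (box d n).filter (fun x => ∃ y, y ∉ box d n ∧
    ∃ i : Fin d, y = x + Pi.single i 1 ∨ x = y + Pi.single i 1)

/-- the configuration with open edges `ω` in `Λ_n`, and with all the edges outside `Λ_n` open (`b = true`) or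
closed (`b = false`) -/
noncomputable def extend (d n : ℕ) (b : Bool) (ω : Finset (Edge d)) : Config d :=
  fun e => if e ∈ boxEdges d n then decide (e ∈ ω) else b

/-- number of connected components of `(ℤ^d, ω)` meeting `Λ_n` -/
noncomputable def numComp (d n : ℕ) (ω : Config d) : ℕ :=
  Set.ncard {C : Set (Vertex d) | ∃ v ∈ box d n, C = {y | Connected ω v y}}

/-- the weight `2^{k(ω)} ∏_e (e^{2β} - 1)^{ω(e)}` of the configuration with open edges `ω` in `Λ_n` -/
noncomputable def weight (d : ℕ) (β : ℝ) (n : ℕ) (b : Bool) (ω : Finset (Edge d)) : ℝ :=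
  2 ^ numComp d n (extend d n b ω) * (Real.exp (2 * β) - 1) ^ ω.card

/-- the FK-Ising probability of the event `X` in `Λ_n`, with boundary condition identically `b` -/
noncomputable def prob (d : ℕ) (β : ℝ) (n : ℕ) (b : Bool) (X : Set (Config d)) : ℝ :=
  open Classical in
  (∑ ω ∈ (boxEdges d n).powerset, weight d β n b ω * (if extend d n b ω ∈ X then 1 else 0)) /
    ∑ ω ∈ (boxEdges d n).powerset, weight d β n b ω

/-- cylinder events: they depend on finitely many edges -/
def IsLocal {d : ℕ} (X : Set (Config d)) : Prop :=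
  ∃ F : Finset (Edge d), ∀ ω ω' : Config d, (∀ e ∈ F, ω e = ω' e) → (ω ∈ X ↔ ω' ∈ X)

/-- `μ` is a probability measure, the weak limit as `n → ∞` of the FK-Ising measures in `Λ_n` with boundary
condition identically `b` -/
def IsWeakLimit {d : ℕ} (β : ℝ) (b : Bool) (μ : Measure (Config d)) : Prop :=
  IsProbabilityMeasure μ ∧
    ∀ X : Set (Config d), IsLocal X → Tendsto (fun n => prob d β n b X) atTop (𝓝 (μ.real X))

/-- the event `x ↔ y` -/
def connEvent {d : ℕ} (x y : Vertex d) : Set (Config d) := {ω | Connected ω x y}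

/-- the event `0 ↔ ∂Λ_n` -/
def armEvent (d n : ℕ) : Set (Config d) := {ω | ∃ y ∈ boundary d n, Connected ω 0 y}

/-- the event `0 ↔ ∞` -/
def percEvent (d : ℕ) : Set (Config d) := {ω | {y | Connected ω 0 y}.Infinite}

theorem isWeakLimit_iff {d : ℕ} (β : ℝ) (b : Bool) (μ : Measure (Config d)) :
    IsWeakLimit β b μ ↔ H82.IC.IsLim β b μ := Iff.rfl

/-- For `d ≥ 3`: the wired measures `φ β` exist, and if `βc` is their critical point, then `βc > 0`, `φ βc` is also the
free measure, there is no infinite cluster, and the critical measure conditioned on `0 ↔ x` (as `x → ∞`) and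
conditioned on `0 ↔ ∂Λ_n` (as `n → ∞`) converges to the same probability measure. -/
theorem result (d : ℕ) (hd : 3 ≤ d) :
    (∃ φ : ℝ → Measure (Config d), ∀ β : ℝ, 0 ≤ β → IsWeakLimit β true (φ β)) ∧
    ∀ φ : ℝ → Measure (Config d), (∀ β : ℝ, 0 ≤ β → IsWeakLimit β true (φ β)) →
      ∀ βc : ℝ, βc = sInf {β : ℝ | 0 ≤ β ∧ 0 < (φ β).real (percEvent d)} →
        0 < βc ∧ IsWeakLimit βc false (φ βc) ∧ (φ βc).real (percEvent d) = 0 ∧
        ∃ φinf : Measure (Config d), IsProbabilityMeasure φinf ∧
          (∀ X : Set (Config d), IsLocal X →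
            Tendsto (fun x : Vertex d =>
              (φ βc).real (X ∩ connEvent 0 x) / (φ βc).real (connEvent 0 x)) cofinite
              (𝓝 (φinf.real X))) ∧
          (∀ X : Set (Config d), IsLocal X →
            Tendsto (fun n : ℕ =>
              (φ βc).real (X ∩ armEvent d n) / (φ βc).real (armEvent d n)) atTop
              (𝓝 (φinf.real X))) := by
  refine ⟨?_, ?_⟩
  · refine ⟨fun β => if h : 0 ≤ β then (H82.IC.exists_IsLim (by omega) h true).choose else 0, ?_⟩
    intro β hβ
    simp only [dif_pos hβ]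
    exact (H82.IC.exists_IsLim (by omega) hβ true).choose_spec
  · intro φ hφ βc hc
    have h1 : βc = H82.IC.bcr d := hc.trans (H82.IC.bc_eq hd φ hφ)
    have h0 : 0 ≤ H82.IC.bcr d := Real.sInf_nonneg (fun x hx => hx.1)
    subst h1
    exact H82.IC.final hd (hφ _ h0)

end Pool.Agent.Results.MP_c4c051_pr.OneArmIIC
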